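import Pool.Agent.H62R3.DiracBase

/-!
# Dirac's generalisation of the Hajos construction does not preserve criticality for `h ≥ 3`
-/

set_option autoImplicit false

namespace Pool.Agent.Results.MP_e06427_co.DiracFails

open SimpleGraph Pool.Agent.H62R3.Dirac

/-- vertices of the pieces -/
abbrev W (m : ℕ) : Type := Fin 10 ⊕ Fin m

/-- the common clique: the triangle `0,1,2` of the base graph and the first `r` apex vertices -/
def H (m r : ℕ) (hr : r ≤ m) : Finset (W m) :=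
  ({0, 1, 2} : Finset (Fin 10)).disjSum ((Finset.univ : Finset (Fin r)).map (Fin.castLEEmb hr))

theorem mem_inl (m r : ℕ) (hr : r ≤ m) (a : Fin 10) :
    (Sum.inl a : W m) ∈ H m r hr ↔ a ∈ ({0, 1, 2} : Finset (Fin 10)) := by
  rw [H, Finset.inl_mem_disjSum]

theorem card_H (m r : ℕ) (hr : r ≤ m) : (H m r hr).card = r + 3 := by
  rw [H, Finset.card_disjSum, Finset.card_map, Finset.card_univ, Fintype.card_fin]
  have h2 : ({0, 1, 2} : Finset (Fin 10)).card = 3 := by decide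
  rw [h2]; omega

theorem clique_H (m r : ℕ) (hr : r ≤ m) : (JG m).IsNClique (r + 3) (H m r hr) := by
  refine ⟨?_, card_H m r hr⟩
  rintro (a | a) ha (b | b) hb hab
  · rw [Finset.mem_coe, mem_inl] at ha hb
    rw [JG_ll]
    have hab' : a ≠ b := fun h => hab (by rw [h])
    have key : ∀ a ∈ ({0, 1, 2} : Finset (Fin 10)), ∀ b ∈ ({0, 1, 2} : Finset (Fin 10)), a ≠ b →
        B.Adj a b := by decide
    exact key a ha b hb hab'
  · exact JG_lr m a b
  · exact JG_rl m b a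
  · rw [JG_rr]
    exact fun h => hab (by rw [h])

/-- vertices of the graph obtained by gluing two copies along `H` -/
abbrev U (m r : ℕ) (hr : r ≤ m) : Type := W m ⊕ {b : W m // b ∉ H m r hr}

open Classical in
/-- second injection -/
noncomputable def j (m r : ℕ) (hr : r ≤ m) (b : W m) : U m r hr :=
  if h : b ∈ H m r hr then Sum.inl b else Sum.inr ⟨b, h⟩

theorem j_of_mem (m r : ℕ) (hr : r ≤ m) (b : W m) (h : b ∈ H m r hr) : j m r hr b = Sum.inl b := by
  simp [j, h]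

theorem j_of_not_mem (m r : ℕ) (hr : r ≤ m) (b : W m) (h : b ∉ H m r hr) : j m r hr b = Sum.inr ⟨b, h⟩ := by
  simp [j, h]

theorem j_inj (m r : ℕ) (hr : r ≤ m) : Function.Injective (j m r hr) := by
  intro a b hab
  by_cases ha : a ∈ H m r hr <;> by_cases hb : b ∈ H m r hr
  · rw [j_of_mem m r hr a ha, j_of_mem m r hr b hb] at hab
    exact Sum.inl_injective hab
  · rw [j_of_mem m r hr a ha, j_of_not_mem m r hr b hb] at hab
    exact absurd hab (by simp)
  · rw [j_of_not_mem m r hr a ha, j_of_mem m r hr b hb] at hab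
    exact absurd hab (by simp)
  · rw [j_of_not_mem m r hr a ha, j_of_not_mem m r hr b hb] at hab
    exact congrArg Subtype.val (Sum.inr_injective hab)

theorem j_eq_inl (m r : ℕ) (hr : r ≤ m) (a b : W m) (h : Sum.inl a = j m r hr b) : b ∈ H m r hr ∧ a = b := by
  by_cases hb : b ∈ H m r hr
  · rw [j_of_mem m r hr b hb] at h
    exact ⟨hb, Sum.inl_injective h⟩
  · rw [j_of_not_mem m r hr b hb] at h
    exact absurd h (by simp)

/-- the data: two copies of the same graph, glued along `H` by the identity -/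
noncomputable def D (m r : ℕ) (hr : r ≤ m) : Data (m + 5) (r + 3) (W m) (W m) (U m r hr) where
  G₁ := JG m
  G₂ := JG m
  crit₁ := JG_critical m
  crit₂ := JG_critical m
  H₁ := H m r hr
  H₂ := H m r hr
  clique₁ := clique_H m r hr
  clique₂ := clique_H m r hr
  x₁ := Sum.inl 0
  y₁ := Sum.inl 3
  x₂ := Sum.inl 0
  y₂ := Sum.inl 3
  x₁_mem := by rw [mem_inl]; decide
  y₁_not_mem := by rw [mem_inl]; decide
  adj₁ := by rw [JG_ll]; decide
  x₂_mem := by rw [mem_inl]; decide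
  y₂_not_mem := by rw [mem_inl]; decide
  adj₂ := by rw [JG_ll]; decide
  j₁ := Sum.inl
  j₂ := j m r hr
  inj₁ := Sum.inl_injective
  inj₂ := j_inj m r hr
  cover := by
    rintro (a | ⟨b, hb⟩)
    · exact Or.inl ⟨a, rfl⟩
    · exact Or.inr ⟨b, j_of_not_mem m r hr b hb⟩
  meet := by
    intro a b h
    obtain ⟨hb, rfl⟩ := j_eq_inl m r hr a b h
    exact ⟨hb, hb⟩
  ident₁ := fun a ha => ⟨a, ha, (j_of_mem m r hr a ha).symm⟩
  ident₂ := fun a ha => ⟨a, ha, (j_of_mem m r hr a ha).symm⟩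
  base := (j_of_mem m r hr _ (by rw [mem_inl]; decide)).symm

theorem s_ne {α β : Type} {f : α → β} (hf : Function.Injective f) {a b c d : α}
    (h : s(a, b) ≠ s(c, d)) : s(f a, f b) ≠ s(f c, f d) := by
  intro h'
  apply h
  rw [Sym2.eq_iff] at h' ⊢
  rcases h' with ⟨h1, h2⟩ | ⟨h1, h2⟩
  · exact Or.inl ⟨hf h1, hf h2⟩
  · exact Or.inr ⟨hf h1, hf h2⟩

theorem adj_j₁ (m r : ℕ) (hr : r ≤ m) (p q : W m) (hpq : (JG m).Adj p q)
    (hne : s(p, q) ≠ s(Sum.inl 0, Sum.inl 3)) :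
    (D m r hr).graph.Adj ((D m r hr).j₁ p) ((D m r hr).j₁ q) := by
  rw [Data.graph, fromRel_adj]
  exact ⟨fun h => hpq.ne ((D m r hr).inj₁ h), Or.inl (Or.inl ⟨p, q, hpq, hne, rfl, rfl⟩)⟩

theorem adj_j₂ (m r : ℕ) (hr : r ≤ m) (p q : W m) (hpq : (JG m).Adj p q)
    (hne : s(p, q) ≠ s(Sum.inl 0, Sum.inl 3)) :
    (D m r hr).graph.Adj ((D m r hr).j₂ p) ((D m r hr).j₂ q) := by
  rw [Data.graph, fromRel_adj]
  exact ⟨fun h => hpq.ne ((D m r hr).inj₂ h), Or.inl (Or.inr (Or.inl ⟨p, q, hpq, hne, rfl, rfl⟩))⟩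

theorem not_critical (m r : ℕ) (hr : r ≤ m) : ¬ IsCritical (m + 5) (D m r hr).graph := by
  intro hcrit
  have hB12 : (JG m).Adj (Sum.inl 1) (Sum.inl 2) := by rw [JG_ll]; decide
  have h1 : (Sum.inl 1 : W m) ∈ H m r hr := by rw [mem_inl]; decide
  have h2 : (Sum.inl 2 : W m) ∈ H m r hr := by rw [mem_inl]; decide
  have h0 : (Sum.inl 0 : W m) ∈ H m r hr := by rw [mem_inl]; decide
  have h3 : (Sum.inl 3 : W m) ∉ H m r hr := by rw [mem_inl]; decide
  have hne12 : s((Sum.inl 1 : W m), Sum.inl 2) ≠ s(Sum.inl 0, Sum.inl 3) := by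
    intro h; rw [Sym2.eq_iff] at h; simp at h
  obtain ⟨f⟩ := delete_of_critical _ (m + 4) hcrit _ _ (adj_j₁ m r hr _ _ hB12 hne12)
  have e0 : (D m r hr).j₂ (Sum.inl 0) = (D m r hr).j₁ (Sum.inl 0) := j_of_mem m r hr _ h0
  have e1 : (D m r hr).j₂ (Sum.inl 1) = (D m r hr).j₁ (Sum.inl 1) := j_of_mem m r hr _ h1
  have e2 : (D m r hr).j₂ (Sum.inl 2) = (D m r hr).j₁ (Sum.inl 2) := j_of_mem m r hr _ h2
  have c1 := P2 m (fun p => f ((D m r hr).j₁ p)) (by
    intro p q hpq hn1 hn2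
    apply f.valid
    rw [deleteEdges_adj]
    refine ⟨adj_j₁ m r hr p q hpq hn2, ?_⟩
    rw [Set.mem_singleton_iff]
    exact s_ne (D m r hr).inj₁ hn1)
  have c2 := P2 m (fun p => f ((D m r hr).j₂ p)) (by
    intro p q hpq hn1 hn2
    apply f.valid
    rw [deleteEdges_adj]
    refine ⟨adj_j₂ m r hr p q hpq hn2, ?_⟩
    rw [Set.mem_singleton_iff]
    have := s_ne (D m r hr).inj₂ hn1
    rwa [e1, e2] at this)
  have hy : f ((D m r hr).j₁ (Sum.inl 3)) ≠ f ((D m r hr).j₂ (Sum.inl 3)) := by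
    apply f.valid
    rw [deleteEdges_adj]
    have hne : (D m r hr).j₁ (Sum.inl 3) ≠ (D m r hr).j₂ (Sum.inl 3) := by
      intro h
      exact h3 (((D m r hr).meet _ _ h).1)
    refine ⟨?_, ?_⟩
    · rw [Data.graph, fromRel_adj]
      exact ⟨hne, Or.inl (Or.inr (Or.inr ⟨rfl, rfl⟩))⟩
    · rw [Set.mem_singleton_iff]
      intro h
      rw [Sym2.eq_iff] at h
      rcases h with ⟨h, _⟩ | ⟨h, _⟩
      · have := Sum.inl_injective ((D m r hr).inj₁ h)
        exact absurd this (by decide)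
      · have := Sum.inl_injective ((D m r hr).inj₁ h)
        exact absurd this (by decide)
  simp only [e0, e1, e2] at c2
  rcases c1 with ⟨a1, a2⟩ | ⟨a1, a2⟩ <;> rcases c2 with ⟨b1, b2⟩ | ⟨b1, b2⟩
  · exact hy (a2.trans b2.symm)
  · exact b1 a1
  · exact a1 b1
  · exact hy (a2.trans b2.symm)

/-- For all `h ≥ 3` and `k ≥ h + 2` (so `k ≥ 5`), there are data for Dirac's construction for which
the resulting finite graph is not `k`-critical. -/
theorem result : ∀ k h : ℕ, 3 ≤ h → h ≤ k - 2 →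
    ∃ (V₁ V₂ V : Type) (_ : Finite V₁) (_ : Finite V₂) (_ : Finite V) (D : Data k h V₁ V₂ V),
      ¬ IsCritical k D.graph := by
  intro k h h3 hk
  obtain ⟨r, rfl⟩ : ∃ r, h = r + 3 := ⟨h - 3, by omega⟩
  obtain ⟨m, rfl⟩ : ∃ m, k = m + 5 := ⟨k - 5, by omega⟩
  exact ⟨W m, W m, U m r (by omega), inferInstance, inferInstance, inferInstance, D m r (by omega),
    not_critical m r (by omega)⟩

end Pool.Agent.Results.MP_e06427_co.DiracFails
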